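import Pool.Agent.Helper82.DG.Part3

/-!
# Dark grids: the rectangles of different kites are disjoint
-/

set_option autoImplicit false

namespace Pool.Agent.Helper82.DG

open Pool.Agent.Helper18.RAC Complex

variable {V : Type*}

private theorem exists_frontier {S : Set ℂ} {z y : ℂ} (hz : z ∈ S) (hy : y ∉ S) :
    ∃ t ∈ segment ℝ z y, t ∈ frontier S := by
  by_contra hcon
  push Not at hcon
  have h1 : IsPreconnected (segment ℝ z y) := (convex_segment z y).isPreconnected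
  have hmem : ∀ t ∈ segment ℝ z y, t ∈ interior S ∨ t ∈ (closure S)ᶜ := by
    intro t ht
    by_cases h : t ∈ closure S
    · left
      by_contra h2
      exact hcon t ht ⟨h, h2⟩
    · exact Or.inr h
  obtain ⟨t, -, h3, h4⟩ := h1 (interior S) (closure S)ᶜ isOpen_interior
    isClosed_closure.isOpen_compl (fun t ht => hmem t ht)
    ⟨z, left_mem_segment ℝ z y, by
      rcases hmem z (left_mem_segment ℝ z y) with h | h
      · exact h
      · exact absurd (subset_closure hz) h⟩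
    ⟨y, right_mem_segment ℝ z y, by
      rcases hmem y (right_mem_segment ℝ z y) with h | h
      · exact absurd (interior_subset h) hy
      · exact h⟩
  exact h4 (subset_closure (interior_subset h3))

/-- the long edges of another grid do not meet the rectangles -/
private theorem long_out {H : SimpleGraph V} {f : V → ℂ} {a b : V} {κ κ' : GX → V} {M : ℕ}
    {ρ : ℕ → ℕ → Set ℂ} (h : Rects H f a b κ M ρ) (hg' : HasGrid H κ' M)
    (hc' : ∀ σ, CoreH H a b (κ' (.X σ)) ∧ CoreH H a b (κ' (.Y σ)))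
    (hs : ∀ σ, ¬ (Cor κ (κ' (.X σ)) ∧ Cor κ (κ' (.Y σ))))
    {c r : ℕ} (h1 : c + 1 < M) (h2 : r + 1 < M) {σ : Bool} {k : ℕ} (hk : k < M) {z : ℂ}
    (hz : z ∈ openSegment ℝ (f (κ' (.v (.U σ k)))) (f (κ' (.v (.P σ (2 * k)))))) :
    z ∉ ρ c r := by
  intro hin
  have hs1 := openSegment_subset_segment ℝ _ _ hz
  have e1 : H.Adj (κ' (.v (.U σ k))) (κ' (.v (.P σ (2 * k)))) := hg'.adj (.up σ k) hk
  have e2 : H.Adj (κ' (.X σ)) (κ' (.v (.U σ k))) := hg'.adj (.xu σ k) hk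
  have e3 : H.Adj (κ' (.Y σ)) (κ' (.v (.P σ (2 * k)))) :=
    hg'.adj (.yp σ (2 * k)) (by show 2 * k < 2 * M; omega)
  apply hs σ
  constructor
  · exact h.thr c r _ _ _ z h1 h2 e1 hs1 hin e2.symm (hc' σ).1
  · rw [segment_symm] at hs1
    exact h.thr c r _ _ _ z h1 h2 e1.symm hs1 hin e3.symm (hc' σ).2

private theorem sub_of_meet {H : SimpleGraph V} {f : V → ℂ} {a b : V} {κ κ' : GX → V} {M : ℕ}
    {ρ ρ' : ℕ → ℕ → Set ℂ} (h : Rects H f a b κ M ρ) (h' : Rects H f a b κ' M ρ')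
    (hg' : HasGrid H κ' M) (hc' : ∀ σ, CoreH H a b (κ' (.X σ)) ∧ CoreH H a b (κ' (.Y σ)))
    (hs : ∀ σ, ¬ (Cor κ (κ' (.X σ)) ∧ Cor κ (κ' (.Y σ))))
    {c r c' r' : ℕ} (h1 : c + 1 < M) (h2 : r + 1 < M) (h3 : c' + 1 < M) (h4 : r' + 1 < M)
    {z : ℂ} (hz : z ∈ ρ c r) (hz' : z ∈ ρ' c' r') : ρ c r ⊆ ρ' c' r' := by
  intro y hy
  by_contra hy'
  obtain ⟨t, ht, hf⟩ := exists_frontier hz' hy'
  obtain ⟨σ, k, hk, hl⟩ := h'.fr c' r' t h3 h4 hf
  exact long_out h hg' hc' hs h1 h2 hk hl ((h.cv c r).segment_subset hz hy ht)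

/-- three vectors of the plane which are pairwise perpendicular -/
private theorem three_perp {x₁ y₁ x₂ y₂ x₃ y₃ : ℝ} (h12 : x₁ * x₂ + y₁ * y₂ = 0)
    (h13 : x₁ * x₃ + y₁ * y₃ = 0) (h23 : x₂ * x₃ + y₂ * y₃ = 0) :
    (x₁ = 0 ∧ y₁ = 0) ∨ (x₂ = 0 ∧ y₂ = 0) ∨ (x₃ = 0 ∧ y₃ = 0) := by
  by_contra hcon
  push Not at hcon
  obtain ⟨n1, n2, n3⟩ := hcon
  have e1 : x₁ * (x₂ * y₃ - y₂ * x₃) = 0 := by
    have : x₁ * (x₂ * y₃ - y₂ * x₃) =
        (x₁ * x₂ + y₁ * y₂) * y₃ - (x₁ * x₃ + y₁ * y₃) * y₂ := by ring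
    rw [this, h12, h13]; ring
  have e2 : y₁ * (x₂ * y₃ - y₂ * x₃) = 0 := by
    have : y₁ * (x₂ * y₃ - y₂ * x₃) =
        (x₁ * x₃ + y₁ * y₃) * x₂ - (x₁ * x₂ + y₁ * y₂) * x₃ := by ring
    rw [this, h12, h13]; ring
  have e3 : x₂ * y₃ - y₂ * x₃ = 0 := by
    by_contra hne
    have hx : x₁ = 0 := by
      rcases mul_eq_zero.1 e1 with h | h
      · exact h
      · exact absurd h hne
    have hy : y₁ = 0 := by
      rcases mul_eq_zero.1 e2 with h | h
      · exact h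
      · exact absurd h hne
    exact n1 hx hy
  have e4 : (x₂ ^ 2 + y₂ ^ 2) * (x₃ ^ 2 + y₃ ^ 2) = 0 := by
    have : (x₂ ^ 2 + y₂ ^ 2) * (x₃ ^ 2 + y₃ ^ 2) =
        (x₂ * x₃ + y₂ * y₃) ^ 2 + (x₂ * y₃ - y₂ * x₃) ^ 2 := by ring
    rw [this, h23, e3]; ring
  rcases mul_eq_zero.1 e4 with h | h
  · have hx : x₂ = 0 := by nlinarith [sq_nonneg x₂, sq_nonneg y₂]
    have hy : y₂ = 0 := by nlinarith [sq_nonneg x₂, sq_nonneg y₂]
    exact n2 hx hy
  · have hx : x₃ = 0 := by nlinarith [sq_nonneg x₃, sq_nonneg y₃]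
    have hy : y₃ = 0 := by nlinarith [sq_nonneg x₃, sq_nonneg y₃]
    exact n3 hx hy

/-- no three edges pass through a common interior point -/
private theorem no_three {H : SimpleGraph V} {f : V → ℂ} (hf : IsRAC H f) {u v x y s t : V}
    (h1 : H.Adj u v) (h2 : H.Adj x y) (h3 : H.Adj s t) (n12 : s(u, v) ≠ s(x, y))
    (n13 : s(u, v) ≠ s(s, t)) (n23 : s(x, y) ≠ s(s, t)) {z : ℂ}
    (z1 : z ∈ openSegment ℝ (f u) (f v)) (z2 : z ∈ openSegment ℝ (f x) (f y))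
    (z3 : z ∈ openSegment ℝ (f s) (f t)) : False := by
  have d12 := hf.crs u v x y h1 h2 n12 z z1 z2
  have d13 := hf.crs u v s t h1 h3 n13 z z1 z3
  have d23 := hf.crs x y s t h2 h3 n23 z z2 z3
  simp only [Complex.mul_re, Complex.sub_re, Complex.sub_im, Complex.conj_re, Complex.conj_im,
    map_sub] at d12 d13 d23
  have key := three_perp (x₁ := (f v).re - (f u).re) (y₁ := (f v).im - (f u).im)
    (x₂ := (f y).re - (f x).re) (y₂ := (f y).im - (f x).im)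
    (x₃ := (f t).re - (f s).re) (y₃ := (f t).im - (f s).im)
    (by linarith) (by linarith) (by linarith)
  rcases key with ⟨e1, e2⟩ | ⟨e1, e2⟩ | ⟨e1, e2⟩
  · exact h1.ne (hf.inj (Complex.ext (by linarith) (by linarith)))
  · exact h2.ne (hf.inj (Complex.ext (by linarith) (by linarith)))
  · exact h3.ne (hf.inj (Complex.ext (by linarith) (by linarith)))

theorem rects_disj {H : SimpleGraph V} {f : V → ℂ} {a b : V} {κ κ' : GX → V} {M : ℕ}
    {ρ ρ' : ℕ → ℕ → Set ℂ} (hf : IsRAC H f) (h : Rects H f a b κ M ρ)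
    (h' : Rects H f a b κ' M ρ') (hg : HasGrid H κ M) (hg' : HasGrid H κ' M)
    (hne : ∀ x y : GN, x.ok M → y.ok M → κ (.v x) ≠ κ' (.v y))
    (hc : ∀ σ, CoreH H a b (κ (.X σ)) ∧ CoreH H a b (κ (.Y σ)))
    (hc' : ∀ σ, CoreH H a b (κ' (.X σ)) ∧ CoreH H a b (κ' (.Y σ)))
    (hs : ∀ σ, ¬ (Cor κ (κ' (.X σ)) ∧ Cor κ (κ' (.Y σ))))
    (hs' : ∀ σ, ¬ (Cor κ' (κ (.X σ)) ∧ Cor κ' (κ (.Y σ))))
    {c r c' r' : ℕ} (h1 : c + 2 < M) (h2 : r + 2 < M) (h3 : c' + 2 < M) (h4 : r' + 2 < M) :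
    Disjoint (ρ c r) (ρ' c' r') := by
  rw [Set.disjoint_iff_inter_eq_empty]
  by_contra hcon
  obtain ⟨z0, hz, hz'⟩ := Set.nonempty_iff_ne_empty.2 hcon
  have heq : ρ c r = ρ' c' r' :=
    Set.Subset.antisymm
      (sub_of_meet h h' hg' hc' hs (by omega) (by omega) (by omega) (by omega) hz hz')
      (sub_of_meet h' h hg hc hs' (by omega) (by omega) (by omega) (by omega) hz' hz)
  have hx := h.mem c r (by omega) (by omega)
  have hy := h.mem (c + 1) r (by omega) (by omega)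
  have hdj := h.dj c r (c + 1) r (by omega) (by omega) (by omega) (by omega) (Or.inl (by omega))
  have hy' : f (κ (.v (.D (c + 1) r))) ∉ ρ c r := fun hin =>
    Set.disjoint_left.1 hdj hin hy
  obtain ⟨t, ht, htf⟩ := exists_frontier hx hy'
  obtain ⟨σ, k, hk, hl⟩ := h.fr c r t (by omega) (by omega) htf
  have htf' : t ∈ frontier (ρ' c' r') := by rw [← heq]; exact htf
  obtain ⟨σ', k', hk', hl'⟩ := h'.fr c' r' t (by omega) (by omega) htf'
  have ht1 : t ≠ f (κ (.v (.D c r))) := by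
    rintro rfl
    rw [(h.op c r).frontier_eq] at htf
    exact htf.2 hx
  have ht2 : t ≠ f (κ (.v (.D (c + 1) r))) := by
    rintro rfl
    rw [(h.op c r).frontier_eq] at htf
    have := hdj.closure_left (h.op (c + 1) r)
    exact Set.disjoint_left.1 this htf.1 hy
  have hto : t ∈ openSegment ℝ (f (κ (.v (.D c r)))) (f (κ (.v (.D (c + 1) r)))) :=
    mem_openSegment_of_ne_left_right ht1.symm ht2.symm ht
  have e0 : H.Adj (κ (.v (.D c r))) (κ (.v (.D (c + 1) r))) :=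
    hg.adj (.dd true r c) ⟨by omega, by omega⟩
  have e1 : H.Adj (κ (.v (.U σ k))) (κ (.v (.P σ (2 * k)))) := hg.adj (.up σ k) hk
  have e2 : H.Adj (κ' (.v (.U σ' k'))) (κ' (.v (.P σ' (2 * k')))) := hg'.adj (.up σ' k') hk'
  have okD : (GN.D c r).ok M := ⟨by omega, by omega⟩
  have okU : (GN.U σ k).ok M := hk
  have okP : (GN.P σ (2 * k)).ok M := by show 2 * k < 2 * M; omega
  have okU' : (GN.U σ' k').ok M := hk'
  have okP' : (GN.P σ' (2 * k')).ok M := by show 2 * k' < 2 * M; omega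
  refine no_three hf e0 e1 e2 ?_ ?_ ?_ hto hl hl'
  · intro hh
    rcases Sym2.eq_iff.1 hh with ⟨g1, -⟩ | ⟨g1, -⟩
    · exact GN.noConfusion (hg.inj _ _ okD okU g1)
    · exact GN.noConfusion (hg.inj _ _ okD okP g1)
  · intro hh
    rcases Sym2.eq_iff.1 hh with ⟨g1, -⟩ | ⟨g1, -⟩
    · exact hne _ _ okD okU' g1
    · exact hne _ _ okD okP' g1
  · intro hh
    rcases Sym2.eq_iff.1 hh with ⟨g1, -⟩ | ⟨g1, -⟩
    · exact hne _ _ okU okU' g1
    · exact hne _ _ okU okP' g1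

end Pool.Agent.Helper82.DG
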